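import Pool.Agent.Y19.TP.Stm2
import Pool.Agent.Y65.TP.CNT

/-! # TP-ROLLEW: Rolle theorem with a constant -/

set_option autoImplicit false

namespace Pool.Agent.Y435.TP

open Polynomial Pool.Agent.Y19.TP Pool.Agent.Y65.TP
open scoped Classical

section

variable {U : Type} [NormedField U] [IsUltrametricDist U]

lemma derivW {s κ : ℝ} (hs : 0 < s) (hκ0 : 0 < κ) (hκ1 : κ ≤ 1) {d : ℕ}
    (hκ : ∀ m : ℕ, 1 ≤ m → m ≤ d → κ ≤ ‖(m : U)‖) {g : U[X]} (hd : g.natDegree ≤ d) {k : ℕ}
    (h : TopI (κ * s) g (k + 1)) (h' : TopI (s / κ) g (k + 1)) :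
    TopI s (derivative g) k := by
  obtain ⟨a0, a1, -⟩ := h
  obtain ⟨-, -, b2⟩ := h'
  have ea : ∀ m, wt (κ * s) g m = κ ^ m * wt s g m := by
    intro m
    unfold wt
    rw [mul_pow]
    ring
  have eb : ∀ m, wt (s / κ) g m = wt s g m / κ ^ m := by
    intro m
    unfold wt
    rw [div_pow]
    ring
  have hw : ∀ m, 0 ≤ wt s g m := fun m => by unfold wt; positivity
  obtain ⟨T, hT⟩ : ∃ T, T = wt s g (k + 1) := ⟨_, rfl⟩
  have hT0 : 0 < T := by
    rw [ea, ← hT] at a0
    exact (mul_pos_iff_of_pos_left (by positivity)).1 a0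
  have hkd : k + 1 ≤ d := by
    by_contra hc
    rw [hT] at hT0
    unfold wt at hT0
    rw [coeff_eq_zero_of_natDegree_lt (by omega)] at hT0
    simp at hT0
  have lo : ∀ m, m < k + 1 → wt s g m ≤ κ * T := by
    intro m hm
    have h1 := a1 m
    rw [ea, ea, ← hT] at h1
    obtain ⟨j, hj⟩ : ∃ j, k + 1 = m + (j + 1) := ⟨k - m, by omega⟩
    rw [hj, pow_add, mul_assoc] at h1
    have h2 : wt s g m ≤ κ ^ (j + 1) * T := le_of_mul_le_mul_left h1 (by positivity)
    refine h2.trans (mul_le_mul_of_nonneg_right ?_ hT0.le)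
    rw [pow_succ]
    exact mul_le_of_le_one_left hκ0.le (pow_le_one₀ hκ0.le hκ1)
  have hi : ∀ m, k + 1 < m → wt s g m < κ * T := by
    intro m hm
    have h1 := b2 m hm
    rw [eb, eb, ← hT] at h1
    obtain ⟨j, rfl⟩ : ∃ j, m = (k + 1) + (j + 1) := ⟨m - k - 2, by omega⟩
    have hp : 0 < κ ^ (k + 1) := by positivity
    have hp' : 0 < κ ^ (j + 1) := by positivity
    rw [pow_add κ (k + 1) (j + 1), div_lt_div_iff₀ (by positivity) hp] at h1
    have h2 : wt s g (k + 1 + (j + 1)) < κ ^ (j + 1) * T := by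
      apply lt_of_mul_lt_mul_right _ hp.le
      calc wt s g (k + 1 + (j + 1)) * κ ^ (k + 1) < T * (κ ^ (k + 1) * κ ^ (j + 1)) := h1
        _ = κ ^ (j + 1) * T * κ ^ (k + 1) := by ring
    refine lt_of_lt_of_le h2 (mul_le_mul_of_nonneg_right ?_ hT0.le)
    rw [pow_succ]
    exact mul_le_of_le_one_left hκ0.le (pow_le_one₀ hκ0.le hκ1)
  have e : ∀ m, wt s (derivative g) m * s = ‖((m + 1 : ℕ) : U)‖ * wt s g (m + 1) := by
    intro m
    unfold wt
    rw [coeff_derivative, norm_mul, pow_succ]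
    push_cast
    ring
  have e2 : ∀ m, wt s (derivative g) m * s ≤ wt s g (m + 1) := by
    intro m
    rw [e]
    exact mul_le_of_le_one_left (hw _) (IsUltrametricDist.norm_natCast_le_one U (m + 1))
  have ek : κ * T ≤ wt s (derivative g) k * s := by
    rw [e, ← hT]
    exact mul_le_mul_of_nonneg_right (hκ (k + 1) (by omega) hkd) hT0.le
  have hkT : 0 < κ * T := mul_pos hκ0 hT0
  refine ⟨?_, fun m => ?_, fun m hm => ?_⟩
  · exact (mul_pos_iff_of_pos_right hs).1 (lt_of_lt_of_le hkT ek)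
  · rcases lt_trichotomy m k with h1 | h1 | h1
    · exact le_of_mul_le_mul_right ((e2 m).trans ((lo _ (by omega)).trans ek)) hs
    · rw [h1]
    · exact le_of_mul_le_mul_right ((e2 m).trans ((hi _ (by omega)).le.trans ek)) hs
  · exact lt_of_mul_lt_mul_right ((e2 m).trans_lt ((hi _ (by omega)).trans_le ek)) hs.le

end

theorem t_ROLLEW : ROLLEW := by
  intro U _ _ _ _ d hd κ hlow f hf w x hwx hw hx
  obtain ⟨hκ0, hκ1, hκ⟩ := hlow
  obtain ⟨r0, hr0⟩ : ∃ r : ℝ, r = ‖x - w‖ := ⟨_, rfl⟩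
  have hr0p : 0 < r0 := by
    rw [hr0, norm_pos_iff]
    exact sub_ne_zero.2 (Ne.symm hwx)
  rw [← hr0]
  have hf0 : f ≠ 0 := by
    rintro rfl
    rw [natDegree_zero] at hf
    omega
  have hf'0 : derivative f ≠ 0 := by
    intro h
    have := Polynomial.derivative_eq_zero.1 h
    omega
  -- the numbers of roots in balls
  set N : ℝ → ℕ := fun r => (f.roots.filter (fun z : U => ‖z - w‖ ≤ r)).card with hN
  have hmono : ∀ r r' : ℝ, r ≤ r' → N r ≤ N r' := by
    intro r r' hrr
    apply Multiset.card_le_card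
    apply Multiset.monotone_filter_right
    intro z hz
    exact hz.trans hrr
  have hwr : w ∈ f.roots := (mem_roots hf0).2 hw
  have hxr : x ∈ f.roots := (mem_roots hf0).2 hx
  have hded : ∀ r : ℝ, r0 ≤ r →
      2 ≤ (f.roots.filter (fun z : U => ‖z - w‖ ≤ r)).dedup.card := by
    intro r hr
    have h1 : w ∈ (f.roots.filter (fun z : U => ‖z - w‖ ≤ r)).toFinset := by
      rw [Multiset.mem_toFinset, Multiset.mem_filter]
      refine ⟨hwr, ?_⟩
      rw [sub_self, norm_zero]
      exact hr0p.le.trans hr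
    have h2 : x ∈ (f.roots.filter (fun z : U => ‖z - w‖ ≤ r)).toFinset := by
      rw [Multiset.mem_toFinset, Multiset.mem_filter]
      refine ⟨hxr, ?_⟩
      rw [← hr0]
      exact hr
    have h3 : 1 < (f.roots.filter (fun z : U => ‖z - w‖ ≤ r)).toFinset.card :=
      Finset.one_lt_card.2 ⟨_, h1, _, h2, hwx⟩
    exact h3
  have hN2 : ∀ r : ℝ, r0 ≤ r → 2 ≤ N r := fun r hr =>
    (hded r hr).trans (Multiset.card_le_card (Multiset.dedup_le _))
  have hNd : ∀ r : ℝ, N r ≤ d := by
    intro r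
    refine (Multiset.card_le_card (Multiset.filter_le _ _)).trans ?_
    rw [← hf]
    exact card_roots' f
  -- an annulus without roots
  obtain ⟨i, hid, hi⟩ : ∃ i, i < d ∧ N (r0 / κ ^ (2 * i)) = N (r0 / κ ^ (2 * (i + 1))) := by
    by_contra hcon
    push Not at hcon
    have key : ∀ i, i ≤ d → i + 2 ≤ N (r0 / κ ^ (2 * i)) := by
      intro i
      induction i with
      | zero =>
        intro _
        simpa using hN2 r0 le_rfl
      | succ i ih =>
        intro hi
        have h1 := ih (by omega)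
        have h2 := hcon i (by omega)
        have h3 : N (r0 / κ ^ (2 * i)) ≤ N (r0 / κ ^ (2 * (i + 1))) := by
          apply hmono
          apply div_le_div_of_nonneg_left hr0p.le (by positivity)
          exact pow_le_pow_of_le_one hκ0.le hκ1 (by omega)
        omega
    have := key d le_rfl
    have := hNd (r0 / κ ^ (2 * d))
    omega
  obtain ⟨s, hs⟩ : ∃ s : ℝ, s = r0 / κ ^ (2 * i + 1) := ⟨_, rfl⟩
  have hs0 : 0 < s := by rw [hs]; positivity
  have e1 : κ * s = r0 / κ ^ (2 * i) := by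
    rw [hs, pow_succ]
    field_simp
  have e2 : s / κ = r0 / κ ^ (2 * (i + 1)) := by
    rw [hs, show 2 * (i + 1) = 2 * i + 1 + 1 by ring, pow_succ κ (2 * i + 1)]
    field_simp
  have hrs : r0 ≤ κ * s := by
    rw [e1, le_div_iff₀ (by positivity)]
    exact mul_le_of_le_one_right hr0p.le (pow_le_one₀ hκ0.le hκ1)
  have hκs : κ * s ≤ s := mul_le_of_le_one_left hs0.le hκ1
  have hss : s ≤ s / κ := by
    rw [le_div_iff₀ hκ0]
    exact mul_le_of_le_one_right hs0.le hκ1
  have hNs : N s = N (κ * s) := by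
    have h1 := hmono _ _ hκs
    have h2 := hmono _ _ hss
    rw [e2, ← hi, ← e1] at h2
    omega
  have hNs' : N (s / κ) = N (κ * s) := by rw [e2, ← hi, ← e1]
  obtain ⟨k, hk⟩ : ∃ k, N (κ * s) = k + 1 := ⟨N (κ * s) - 1, by have := hN2 _ hrs; omega⟩
  have t1 : TopI (κ * s) (f.comp (X + C w)) (k + 1) := by
    rw [← hk]
    exact TopI.of_roots (by positivity) w hf0
  have t2 : TopI (s / κ) (f.comp (X + C w)) (k + 1) := by
    rw [← hk, ← hNs']
    exact TopI.of_roots (by positivity) w hf0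
  have hdeg : (f.comp (X + C w)).natDegree ≤ d := by
    rw [natDegree_comp, natDegree_X_add_C, mul_one, hf]
  have t3 := derivW hs0 hκ0 hκ1 hκ hdeg t1 t2
  have e : derivative (f.comp (X + C w)) = (derivative f).comp (X + C w) := by
    rw [derivative_comp]
    simp
  rw [e] at t3
  have t4 := TopI.of_roots hs0 w hf'0
  have hcard := t4.unique t3
  -- a critical point which is not a root
  by_contra hcon
  push Not at hcon
  have hall : ∀ c ∈ (derivative f).roots.filter (fun z : U => ‖z - w‖ ≤ s), f.eval c = 0 := by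
    intro c hc
    rw [Multiset.mem_filter, mem_roots hf'0] at hc
    refine hcon c hc.1 ?_
    have h1 : κ ^ (2 * d) * ‖c - w‖ ≤ κ ^ (2 * d) * s :=
      mul_le_mul_of_nonneg_left hc.2 (by positivity)
    refine h1.trans ?_
    obtain ⟨j, hj⟩ : ∃ j, 2 * d = (2 * i + 1) + j := ⟨2 * d - 2 * i - 1, by omega⟩
    rw [hs, hj, pow_add]
    have h2 : κ ^ (2 * i + 1) * κ ^ j * (r0 / κ ^ (2 * i + 1)) = κ ^ j * r0 := by
      field_simp
    rw [h2]
    exact mul_le_of_le_one_left hr0p.le (pow_le_one₀ hκ0.le hκ1)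
  have hle : (derivative f).roots.filter (fun z : U => ‖z - w‖ ≤ s) ≤
      f.roots.filter (fun z : U => ‖z - w‖ ≤ s) -
        (f.roots.filter (fun z : U => ‖z - w‖ ≤ s)).dedup := by
    rw [Multiset.le_iff_count]
    intro z
    by_cases hz : z ∈ (derivative f).roots.filter (fun z : U => ‖z - w‖ ≤ s)
    · have hz0 := hall z hz
      have hzs := (Multiset.mem_filter.1 hz).2
      have hroot : f.IsRoot z := hz0
      have hmem : z ∈ f.roots.filter (fun z : U => ‖z - w‖ ≤ s) :=
        Multiset.mem_filter.2 ⟨(mem_roots hf0).2 hz0, hzs⟩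
      rw [Multiset.count_sub, Multiset.count_dedup, if_pos hmem,
        Multiset.count_filter_of_pos (p := fun z : U => ‖z - w‖ ≤ s) hzs,
        Multiset.count_filter_of_pos (p := fun z : U => ‖z - w‖ ≤ s) hzs, count_roots, count_roots,
        derivative_rootMultiplicity_of_root hroot]
    · rw [Multiset.count_eq_zero_of_notMem hz]
      exact Nat.zero_le _
  have h1 := Multiset.card_le_card hle
  rw [Multiset.card_sub (Multiset.dedup_le _), hcard] at h1
  have h2 := hded s (hrs.trans hκs)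
  have h3 : (f.roots.filter (fun z : U => ‖z - w‖ ≤ s)).card = k + 1 := by
    have : N s = k + 1 := by rw [hNs, hk]
    exact this
  rw [h3] at h1
  have h4 : k ≤ k + 1 - 2 := h1.trans (Nat.sub_le_sub_left (by convert h2) _)
  have h5 := hN2 _ hrs
  omega

end Pool.Agent.Y435.TP
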